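import Pool.Agent.W37.SG.Stm

/-! Project SG, part D2: depth one coefficients of a triangular permutation. -/

set_option autoImplicit false

open scoped BigOperators
open Pool.Agent.W37.SG

namespace Pool.Agent.W140.SG

variable {p : ℕ}

lemma U_mono {n m : ℕ} (h : n ≤ m) : U p n ≤ U p m :=
  Submodule.span_mono (fun _ ⟨i, hi, hf⟩ => ⟨i, lt_of_lt_of_le hi h, hf⟩)

lemma mon_mem {i n : ℕ} (h : i < n) : mon p i ∈ U p n := Submodule.subset_span ⟨i, h, rfl⟩

/-- functions of the first `k` coordinates -/
def Dk (k : ℕ) (f : Fn p) : Prop := ∀ x y : ℕ → ZMod p, (∀ j < k, x j = y j) → f x = f y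

lemma mon_eq [Fact p.Prime] (i K : ℕ) (h : i < p ^ K) (x : ℕ → ZMod p) :
    mon p i x = ∏ j ∈ Finset.range K, x j ^ (i / p ^ j % p) := by
  have hp : 1 < p := (Fact.out : p.Prime).one_lt
  have h1 : ∀ N, i < p ^ N → ∀ M, N ≤ M → ∏ j ∈ Finset.range M, x j ^ (i / p ^ j % p)
      = ∏ j ∈ Finset.range N, x j ^ (i / p ^ j % p) := by
    intro N hN M hM
    symm
    refine Finset.prod_subset (Finset.range_mono hM) ?_
    intro j _ hj
    have h3 : N ≤ j := by simpa using hj
    have h4 : i / p ^ j = 0 :=
      Nat.div_eq_of_lt (lt_of_lt_of_le hN (Nat.pow_le_pow_right (by omega) h3))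
    rw [h4]
    simp
  have h2 : i < p ^ i := Nat.lt_pow_self hp
  unfold mon
  rcases le_total i K with h3 | h3
  · exact (h1 i h2 K h3).symm
  · exact h1 K h i h3

lemma dig [Fact p.Prime] (e k j i0 : ℕ) (hj : j < k) :
    (e * p ^ k + i0) / p ^ j % p = i0 / p ^ j % p := by
  have hp : 1 < p := (Fact.out : p.Prime).one_lt
  obtain ⟨r, rfl⟩ := Nat.exists_eq_add_of_lt hj
  have h1 : e * p ^ (j + r + 1) + i0 = p ^ j * (p * (e * p ^ r)) + i0 := by ring
  rw [h1, Nat.mul_add_div (by positivity), Nat.mul_add_mod]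

lemma dig2 [Fact p.Prime] (e k i0 : ℕ) (he : e < p) (hi : i0 < p ^ k) :
    (e * p ^ k + i0) / p ^ k % p = e := by
  have hp : 1 < p := (Fact.out : p.Prime).one_lt
  rw [mul_comm, Nat.mul_add_div (by positivity), Nat.div_eq_of_lt hi, add_zero,
    Nat.mod_eq_of_lt he]

lemma lt_pow_succ' [Fact p.Prime] (e k i0 : ℕ) (he : e < p) (hi : i0 < p ^ k) :
    e * p ^ k + i0 < p ^ (k + 1) := by
  have h1 : (e + 1) * p ^ k ≤ p * p ^ k := Nat.mul_le_mul_right _ he
  rw [pow_succ']
  nlinarith

lemma mon_add [Fact p.Prime] (e k i0 : ℕ) (he : e < p) (hi : i0 < p ^ k) (x : ℕ → ZMod p) :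
    mon p (e * p ^ k + i0) x = x k ^ e * mon p i0 x := by
  rw [mon_eq _ (k + 1) (lt_pow_succ' e k i0 he hi), mon_eq i0 k hi, Finset.prod_range_succ,
    mul_comm, dig2 e k i0 he hi]
  congr 1
  refine Finset.prod_congr rfl (fun j hj => ?_)
  rw [dig e k j i0 (Finset.mem_range.mp hj)]

lemma mul_mem [Fact p.Prime] (e k n : ℕ) (f : Fn p) (he : e < p) (hn : n ≤ p ^ k)
    (hf : f ∈ U p n) : (fun x => x k ^ e * f x) ∈ U p (e * p ^ k + n) := by
  refine Submodule.span_induction (p := fun f _ => (fun x => x k ^ e * f x) ∈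
    U p (e * p ^ k + n)) ?_ ?_ ?_ ?_ hf
  · rintro f ⟨i, hi, rfl⟩
    have h1 : (fun x : ℕ → ZMod p => x k ^ e * mon p i x) = mon p (e * p ^ k + i) := by
      funext x
      rw [mon_add e k i he (lt_of_lt_of_le hi hn)]
    rw [h1]
    exact mon_mem (by omega)
  · have h1 : (fun x : ℕ → ZMod p => x k ^ e * (0 : Fn p) x) = 0 := by
      funext x
      simp
    rw [h1]
    exact Submodule.zero_mem _
  · intro f g _ _ hf hg
    have h1 : (fun x : ℕ → ZMod p => x k ^ e * (f + g) x)
        = (fun x => x k ^ e * f x) + (fun x => x k ^ e * g x) := by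
      funext x
      simp [mul_add]
    rw [h1]
    exact Submodule.add_mem _ hf hg
  · intro a f _ hf
    have h1 : (fun x : ℕ → ZMod p => x k ^ e * (a • f) x)
        = a • (fun x => x k ^ e * f x) := by
      funext x
      simp only [Pi.smul_apply, smul_eq_mul]
      ring
    rw [h1]
    exact Submodule.smul_mem _ _ hf

lemma ext0_snoc (k : ℕ) (y : Fin k → ZMod p) (a : ZMod p) :
    ext0 p (k + 1) (Fin.snoc y a : Fin (k + 1) → ZMod p)
      = Function.update (ext0 p k y) k a := by
  funext i
  unfold ext0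
  rcases lt_trichotomy i k with h | h | h
  · have h1 : i < k + 1 := by omega
    have h2 : i ≠ k := by omega
    simp [Fin.snoc, h, h1, h2, Function.update_of_ne]
  · subst h
    simp [Fin.snoc]
  · have h1 : ¬ i < k + 1 := by omega
    have h2 : i ≠ k := by omega
    have h3 : ¬ i < k := by omega
    simp [h1, h2, h3, Function.update_of_ne]

lemma sum_split [NeZero p] (k : ℕ) (F : Fn p) :
    ∑ y : Fin (k + 1) → ZMod p, F (ext0 p (k + 1) y)
      = ∑ y : Fin k → ZMod p, ∑ a : ZMod p, F (Function.update (ext0 p k y) k a) := by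
  rw [← (Fin.snocEquiv (fun _ : Fin (k + 1) => ZMod p)).sum_comp, Fintype.sum_prod_type,
    Finset.sum_comm]
  refine Finset.sum_congr rfl (fun y _ => Finset.sum_congr rfl (fun a _ => ?_))
  rw [← ext0_snoc]
  rfl

lemma delta [Fact p.Prime] (s t : ZMod p) : 1 - (s - t) ^ (p - 1) = if t = s then 1 else 0 := by
  have hp : 1 < p := (Fact.out : p.Prime).one_lt
  split_ifs with h
  · rw [h, sub_self, zero_pow (by omega), sub_zero]
  · rw [ZMod.pow_card_sub_one_eq_one (sub_ne_zero.mpr (Ne.symm h)), sub_self]

lemma refi [Fact p.Prime] (k : ℕ) : ∀ h : Fn p, Dk k h →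
    (fun x => h x - (-1) ^ k * (∑ y : Fin k → ZMod p, h (ext0 p k y)) * mon p (p ^ k - 1) x)
      ∈ U p (p ^ k - 1) := by
  have hp : 1 < p := (Fact.out : p.Prime).one_lt
  induction k with
  | zero =>
    intro h hh
    have h1 : (fun x => h x - (-1) ^ 0 * (∑ y : Fin 0 → ZMod p, h (ext0 p 0 y))
        * mon p (p ^ 0 - 1) x) = 0 := by
      funext x
      have h2 : h x = h (ext0 p 0 default) := hh _ _ (fun j hj => by omega)
      rw [h2]
      simp [mon]
      rw [sub_eq_zero]
      exact hh _ _ (fun j hj => by omega)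
    rw [h1]
    exact Submodule.zero_mem _
  | succ k ih =>
    have hB : ∀ h : Fn p, Dk k h → h ∈ U p (p ^ k) := by
      intro h hh
      have h1 := ih h hh
      have hpk : 0 < p ^ k := by positivity
      have h2 : mon p (p ^ k - 1) ∈ U p (p ^ k) := mon_mem (by omega)
      have h3 := Submodule.add_mem _ (U_mono (by omega : p ^ k - 1 ≤ p ^ k) h1)
        (Submodule.smul_mem _ ((-1) ^ k * (∑ y : Fin k → ZMod p, h (ext0 p k y))) h2)
      convert h3 using 1
      funext x
      simp
    intro h hh
    have hpk : 0 < p ^ k := by positivity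
    set ha : ZMod p → Fn p := fun a x => h (Function.update x k a) with hha
    have hD : ∀ a, Dk k (ha a) := by
      intro a x y hxy
      refine hh _ _ (fun j hj => ?_)
      rcases Nat.lt_succ_iff_lt_or_eq.mp hj with h1 | h1
      · rw [Function.update_of_ne (by omega), Function.update_of_ne (by omega)]
        exact hxy j h1
      · subst h1
        simp
    have hle : (p - 1) * p ^ k ≤ p ^ (k + 1) - 1 := by
      rw [pow_succ']
      have : (p - 1) * p ^ k + p ^ k = p * p ^ k := by
        rw [← Nat.succ_mul]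
        congr 1
        omega
      omega
    have hone : p ^ k ≤ (p - 1) * p ^ k := Nat.le_mul_of_pos_left _ (by omega)
    have step1 : ∀ a, (fun x => ha a x * (1 - (x k - a) ^ (p - 1)) + ha a x * x k ^ (p - 1))
        ∈ U p ((p - 1) * p ^ k) := by
      intro a
      have e1 : (fun x : ℕ → ZMod p => ha a x * (1 - (x k - a) ^ (p - 1))
          + ha a x * x k ^ (p - 1)) = ha a - ∑ m ∈ Finset.range (p - 1),
            (fun x : ℕ → ZMod p => x k ^ m *
              (((-a) ^ (p - 1 - m) * ((p - 1).choose m : ZMod p)) * ha a x)) := by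
        funext x
        have h5 : (x k - a) ^ (p - 1) = ∑ m ∈ Finset.range (p - 1 + 1),
          x k ^ m * (-a) ^ (p - 1 - m) * ((p - 1).choose m : ZMod p) := by
          rw [sub_eq_add_neg, add_pow]
        rw [h5, Finset.sum_range_succ]
        simp only [Pi.sub_apply, Finset.sum_apply, Nat.sub_self, pow_zero, mul_one,
          Nat.choose_self, Nat.cast_one]
        rw [mul_sub, mul_add, Finset.mul_sum, mul_one]
        have h6 : ∀ m ∈ Finset.range (p - 1), ha a x * (x k ^ m * (-a) ^ (p - 1 - m)
            * ((p - 1).choose m : ZMod p)) = x k ^ m *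
              (((-a) ^ (p - 1 - m) * ((p - 1).choose m : ZMod p)) * ha a x) := by
          intro m _
          ring
        rw [Finset.sum_congr rfl h6]
        ring
      rw [e1]
      refine Submodule.sub_mem _ (U_mono hone (hB _ (hD a))) (Submodule.sum_mem _ ?_)
      intro m hm
      have hm' := Finset.mem_range.mp hm
      have h7 : (fun x => ((-a) ^ (p - 1 - m) * ((p - 1).choose m : ZMod p)) * ha a x)
          ∈ U p (p ^ k) := Submodule.smul_mem _ _ (hB _ (hD a))
      have h8 := mul_mem m k (p ^ k) _ (by omega) le_rfl h7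
      refine U_mono ?_ h8
      have : (m + 1) * p ^ k ≤ (p - 1) * p ^ k := Nat.mul_le_mul_right _ (by omega)
      linarith
    set S : Fn p := fun x => ∑ a, ha a x with hS
    have hSD : Dk k S := fun x y hxy => Finset.sum_congr rfl (fun a _ => hD a x y hxy)
    have step2 : (fun x => h x + S x * x k ^ (p - 1)) ∈ U p ((p - 1) * p ^ k) := by
      have e2 : (fun x : ℕ → ZMod p => h x + S x * x k ^ (p - 1)) = ∑ a : ZMod p,
          (fun x : ℕ → ZMod p => ha a x * (1 - (x k - a) ^ (p - 1))
            + ha a x * x k ^ (p - 1)) := by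
        funext x
        rw [Finset.sum_apply, Finset.sum_add_distrib, ← Finset.sum_mul]
        congr 1
        simp only [delta, mul_ite, mul_one, mul_zero, Finset.sum_ite_eq', Finset.mem_univ, if_true]
        simp only [hha, Function.update_eq_self]
      rw [e2]
      exact Submodule.sum_mem _ (fun a _ => step1 a)
    have step3 := ih S hSD
    have step4 := mul_mem (p - 1) k (p ^ k - 1) _ (by omega) (by omega) step3
    have hidx : (p - 1) * p ^ k + (p ^ k - 1) = p ^ (k + 1) - 1 := by
      rw [pow_succ']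
      have : (p - 1) * p ^ k + p ^ k = p * p ^ k := by
        rw [← Nat.succ_mul]
        congr 1
        omega
      omega
    rw [hidx] at step4
    have step5 := Submodule.sub_mem _ (U_mono hle step2) step4
    convert step5 using 1
    funext x
    have e3 : mon p (p ^ (k + 1) - 1) x = x k ^ (p - 1) * mon p (p ^ k - 1) x := by
      rw [← hidx]
      exact mon_add (p - 1) k (p ^ k - 1) (by omega) (by omega) x
    simp only [Pi.sub_apply]
    rw [e3, sum_split]
    simp only [hS, hha]
    ring

lemma toU [Fact p.Prime] (k : ℕ) (h : Fn p) (hh : Dk k h) : h ∈ U p (p ^ k) := by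
  have hp : 1 < p := (Fact.out : p.Prime).one_lt
  have h1 := refi k h hh
  have hpk : 0 < p ^ k := by positivity
  have h2 : mon p (p ^ k - 1) ∈ U p (p ^ k) := mon_mem (by omega)
  have h3 := Submodule.add_mem _ (U_mono (by omega : p ^ k - 1 ≤ p ^ k) h1)
    (Submodule.smul_mem _ ((-1) ^ k * (∑ y : Fin k → ZMod p, h (ext0 p k y))) h2)
  convert h3 using 1
  funext x
  simp

lemma cf1 [Fact p.Prime] (e k : ℕ) (g : Pm p) (h0 : 0 < e) (he : e < p) :
    cf p (e * p ^ k) g = (e : ZMod p) * ((-1) ^ k * tau p k g) := by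
  have hp : 1 < p := (Fact.out : p.Prime).one_lt
  have h1 : padicValNat p (e * p ^ k) = k := by
    rw [padicValNat.mul (by omega) (by positivity), padicValNat.prime_pow,
      padicValNat.eq_zero_of_not_dvd (Nat.not_dvd_of_pos_of_lt h0 he), zero_add]
  have h2 := dig2 (p := p) e k 0 he (by positivity)
  rw [add_zero] at h2
  simp only [cf, ed, h1, h2]

lemma cf2 [Fact p.Prime] (e k i0 : ℕ) (g : Pm p) (h0 : 0 < i0) (hi : i0 < p ^ k) :
    cf p (e * p ^ k + i0) g = cf p i0 g := by
  have hp : 1 < p := (Fact.out : p.Prime).one_lt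
  have hv : padicValNat p i0 < k := by
    by_contra hcon
    push Not at hcon
    have h1 : p ^ k ∣ i0 := (padicValNat_dvd_iff_le (by omega)).mpr hcon
    have := Nat.le_of_dvd h0 h1
    omega
  have h1 : padicValNat p (e * p ^ k + i0) = padicValNat p i0 := by
    apply le_antisymm
    · by_contra hcon
      push Not at hcon
      have h2 : p ^ (padicValNat p i0 + 1) ∣ e * p ^ k + i0 :=
        (padicValNat_dvd_iff_le (by omega)).mpr hcon
      have h3 : p ^ (padicValNat p i0 + 1) ∣ e * p ^ k :=
        Dvd.dvd.mul_left (pow_dvd_pow p hv) e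
      have h4 := (Nat.dvd_add_right h3).mp h2
      have h5 := (padicValNat_dvd_iff_le (by omega)).mp h4
      omega
    · refine (padicValNat_dvd_iff_le (by omega)).mp ?_
      refine Dvd.dvd.add (Dvd.dvd.mul_left (pow_dvd_pow p hv.le) e) ?_
      exact (padicValNat_dvd_iff_le (by omega)).mpr le_rfl
  simp only [cf, ed, h1, dig e k _ i0 hv]

/-- the binomial expansion -/
lemma bin [Fact p.Prime] (k e : ℕ) (he : e < p) (g : Pm p) (hg : IsTri p g) (h : Fn p)
    (hh : Dk k h) : (fun x => ((g x k) ^ e - x k ^ e) * h x) ∈ U p (e * p ^ k) := by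
  have hgk : Dk k (fun x => g x k - x k) := fun x y hxy => hg k x y hxy
  have e1 : (fun x : ℕ → ZMod p => ((g x k) ^ e - x k ^ e) * h x) = ∑ m ∈ Finset.range e,
      (fun x : ℕ → ZMod p => x k ^ m * ((g x k - x k) ^ (e - m) * (e.choose m : ZMod p) * h x)) := by
    funext x
    have h1 : (g x k) ^ e = (x k + (g x k - x k)) ^ e := by ring
    rw [h1, add_pow, Finset.sum_range_succ]
    simp only [Nat.sub_self, pow_zero, mul_one, Nat.choose_self, Nat.cast_one, add_sub_cancel_right,
      Finset.sum_apply]
    rw [Finset.sum_mul]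
    refine Finset.sum_congr rfl (fun m _ => ?_)
    ring
  rw [e1]
  refine Submodule.sum_mem _ (fun m hm => ?_)
  have hm' := Finset.mem_range.mp hm
  have h2 : Dk k (fun x => (g x k - x k) ^ (e - m) * (e.choose m : ZMod p) * h x) := by
    intro x y hxy
    have h3 := hgk x y hxy
    have h4 := hh x y hxy
    simp only at h3 h4 ⊢
    rw [h3, h4]
  have h5 := mul_mem m k (p ^ k) _ (by omega) le_rfl (toU k _ h2)
  refine U_mono ?_ h5
  have : (m + 1) * p ^ k ≤ e * p ^ k := Nat.mul_le_mul_right _ (by omega)
  linarith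

lemma bin2 [Fact p.Prime] (k e : ℕ) (he : e + 1 < p) (g : Pm p) (hg : IsTri p g) :
    (fun x => (g x k) ^ (e + 1) - x k ^ (e + 1) - ((e + 1 : ℕ) : ZMod p) *
      (x k ^ e * (g x k - x k))) ∈ U p (e * p ^ k) := by
  have hgk : Dk k (fun x => g x k - x k) := fun x y hxy => hg k x y hxy
  have e1 : (fun x : ℕ → ZMod p => (g x k) ^ (e + 1) - x k ^ (e + 1) -
      ((e + 1 : ℕ) : ZMod p) * (x k ^ e * (g x k - x k))) = ∑ m ∈ Finset.range e,
      (fun x : ℕ → ZMod p => x k ^ m * ((g x k - x k) ^ (e + 1 - m) *
        ((e + 1).choose m : ZMod p))) := by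
    funext x
    have h1 : (g x k) ^ (e + 1) = (x k + (g x k - x k)) ^ (e + 1) := by ring
    rw [h1, add_pow, Finset.sum_range_succ, Finset.sum_range_succ]
    simp only [Nat.sub_self, pow_zero, mul_one, Nat.choose_self, Nat.cast_one, Finset.sum_apply,
      Nat.add_sub_cancel_left, pow_one, Nat.choose_succ_self_right]
    have h2 : ∀ m ∈ Finset.range e, x k ^ m * (g x k - x k) ^ (e + 1 - m) *
        ((e + 1).choose m : ZMod p) = x k ^ m * ((g x k - x k) ^ (e + 1 - m) *
        ((e + 1).choose m : ZMod p)) := fun m _ => by ring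
    rw [Finset.sum_congr rfl h2]
    ring
  rw [e1]
  refine Submodule.sum_mem _ (fun m hm => ?_)
  have hm' := Finset.mem_range.mp hm
  have h2 : Dk k (fun x => (g x k - x k) ^ (e + 1 - m) * ((e + 1).choose m : ZMod p)) := by
    intro x y hxy
    have h3 := hgk x y hxy
    simp only at h3 ⊢
    rw [h3]
  have h5 := mul_mem m k (p ^ k) _ (by omega) le_rfl (toU k _ h2)
  refine U_mono ?_ h5
  have : (m + 1) * p ^ k ≤ e * p ^ k := Nat.mul_le_mul_right _ (by omega)
  linarith

lemma core [Fact p.Prime] (g : Pm p) (hg : IsTri p g) (k : ℕ) : ∀ i, 1 ≤ i → i < p ^ k →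
    (fun x => mon p i (g x) - mon p i x - cf p i g * mon p (i - 1) x) ∈ U p (i - 1) := by
  have hp : 1 < p := (Fact.out : p.Prime).one_lt
  induction k with
  | zero =>
    intro i h1 h2
    simp at h2
    omega
  | succ k ih =>
    intro i h1 h2
    have hpk : 0 < p ^ k := by positivity
    set e := i / p ^ k with he
    set i0 := i % p ^ k with hi0
    have hi : i = e * p ^ k + i0 := by
      rw [he, hi0, mul_comm]
      exact (Nat.div_add_mod i (p ^ k)).symm
    have hi0lt : i0 < p ^ k := Nat.mod_lt _ hpk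
    have hep : e < p := by
      rw [he]
      rw [Nat.div_lt_iff_lt_mul hpk]
      rw [pow_succ'] at h2
      exact h2
    rcases Nat.eq_zero_or_pos e with he0 | he0
    · have h3 : i < p ^ k := by
        rw [hi, he0]
        omega
      exact ih i h1 h3
    rcases Nat.eq_zero_or_pos i0 with hz | hz
    · -- pure power
      rw [hz, add_zero] at hi
      obtain ⟨e', rfl'⟩ : ∃ e', e = e' + 1 := ⟨e - 1, by omega⟩
      rw [rfl'] at hi hep
      have hmon : ∀ x, mon p i x = x k ^ (e' + 1) := by
        intro x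
        have h3 := mon_add (e' + 1) k 0 hep hpk x
        rw [add_zero] at h3
        rw [hi, h3]
        simp [mon]
      have hidx : i - 1 = e' * p ^ k + (p ^ k - 1) := by
        rw [hi, Nat.succ_mul]
        omega
      have hmon1 : ∀ x, mon p (i - 1) x = x k ^ e' * mon p (p ^ k - 1) x := by
        intro x
        rw [hidx]
        exact mon_add e' k (p ^ k - 1) (by omega) (by omega) x
      have hcf : cf p i g = ((e' + 1 : ℕ) : ZMod p) * ((-1) ^ k * tau p k g) := by
        rw [hi]
        exact cf1 (e' + 1) k g (by omega) hep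
      have hgk : Dk k (fun x => g x k - x k) := fun x y hxy => hg k x y hxy
      have s1 := refi k _ hgk
      have s2 := mul_mem e' k (p ^ k - 1) _ (by omega) (by omega) s1
      rw [← hidx] at s2
      have s3 := U_mono (by omega : e' * p ^ k ≤ i - 1) (bin2 k e' hep g hg)
      have s4 := Submodule.add_mem _ s3 (Submodule.smul_mem _ ((e' + 1 : ℕ) : ZMod p) s2)
      convert s4 using 1
      funext x
      simp only [Pi.add_apply, Pi.smul_apply, smul_eq_mul]
      rw [hmon, hmon, hmon1, hcf]
      unfold tau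
      ring
    · have hmon : ∀ x, mon p i x = x k ^ e * mon p i0 x := by
        intro x
        rw [hi]
        exact mon_add e k i0 hep hi0lt x
      have hidx : i - 1 = e * p ^ k + (i0 - 1) := by omega
      have hmon1 : ∀ x, mon p (i - 1) x = x k ^ e * mon p (i0 - 1) x := by
        intro x
        rw [hidx]
        exact mon_add e k (i0 - 1) hep (by omega) x
      have hcf : cf p i g = cf p i0 g := by
        rw [hi]
        exact cf2 e k i0 g hz hi0lt
      have hDm : Dk k (fun x => mon p i0 (g x)) := by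
        intro x y hxy
        simp only
        rw [mon_eq i0 k hi0lt, mon_eq i0 k hi0lt]
        refine Finset.prod_congr rfl (fun j hj => ?_)
        have hj' := Finset.mem_range.mp hj
        have h3 := hg j x y (fun l hl => hxy l (by omega))
        have h4 := hxy j hj'
        rw [h4] at h3
        rw [sub_left_inj] at h3
        rw [h3]
      have s1 := bin k e hep g hg _ hDm
      have s2 := U_mono (by omega : e * p ^ k ≤ i - 1) s1
      have s3 := mul_mem e k (i0 - 1) _ hep (by omega) (ih i0 hz hi0lt)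
      rw [← hidx] at s3
      have s4 := Submodule.add_mem _ s2 s3
      convert s4 using 1
      funext x
      simp only [Pi.add_apply]
      rw [hmon, hmon, hmon1, hcf]
      ring

theorem d2 : S_D2 := by
  intro p _ g hg
  have hp : 1 < p := (Fact.out : p.Prime).one_lt
  have hL : Lead p 1 g (fun i => cf p i g) := by
    intro i hi
    exact core g hg i i hi (Nat.lt_pow_self hp)
  refine ⟨?_, hL⟩
  intro n f hf
  refine Submodule.span_induction (p := fun f _ => (fun x => f (g x) - f x) ∈ U p (n - 1))
    ?_ ?_ ?_ ?_ hf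
  · rintro f ⟨i, hi, rfl⟩
    rcases Nat.eq_zero_or_pos i with h0 | h0
    · have h1 : (fun x : ℕ → ZMod p => mon p i (g x) - mon p i x) = 0 := by
        funext x
        simp [h0, mon]
      rw [h1]
      exact Submodule.zero_mem _
    · have h1 := hL i h0
      have h2 : mon p (i - 1) ∈ U p (n - 1) := mon_mem (by omega)
      have h3 := Submodule.add_mem _ (U_mono (by omega : i - 1 ≤ n - 1) h1)
        (Submodule.smul_mem _ (cf p i g) h2)
      convert h3 using 1
      funext x
      simp
  · have h1 : (fun x : ℕ → ZMod p => (0 : Fn p) (g x) - (0 : Fn p) x) = 0 := by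
      funext x
      simp
    rw [h1]
    exact Submodule.zero_mem _
  · intro f f' _ _ h1 h2
    have h3 := Submodule.add_mem _ h1 h2
    convert h3 using 1
    funext x
    simp only [Pi.add_apply]
    ring
  · intro a f _ h1
    have h3 := Submodule.smul_mem _ a h1
    convert h3 using 1
    funext x
    simp only [Pi.smul_apply, smul_eq_mul]
    ring

theorem main : Pool.Agent.W37.SG.S_D2 := d2

end Pool.Agent.W140.SG
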